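import Mathlib

namespace Pool.Agent.Results.MP_c016d9_an.FallingFactorial

open Polynomial

/-- `p` has only real zeros (in particular `p ≠ 0`). -/
def RealRooted (p : ℝ[X]) : Prop := ∀ z : ℂ, aeval z p = 0 → z.im = 0

/-- zero, or only real zeros -/
def RR (p : ℝ[X]) : Prop := p = 0 ∨ RealRooted p

lemma conj_aeval (p : ℝ[X]) (z : ℂ) : aeval (starRingEnd ℂ z) p = starRingEnd ℂ (aeval z p) := by
  have := Polynomial.aeval_algHom_apply (Complex.conjAe.toAlgHom) z p
  exact this

lemma realRooted_of_upper {p : ℝ[X]} (h : ∀ z : ℂ, 0 < z.im → aeval z p ≠ 0) : RealRooted p := by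
  intro z hz
  rcases lt_trichotomy z.im 0 with h1 | h1 | h1
  · exfalso
    apply h (starRingEnd ℂ z) (by simpa using h1)
    rw [conj_aeval, hz, map_zero]
  · exact h1
  · exact absurd hz (h z h1)

lemma inv_im_neg {w : ℂ} (hw : 0 < w.im) : (1 / w).im < 0 := by
  rw [one_div, Complex.inv_im]
  have : 0 < Complex.normSq w := Complex.normSq_pos.2 (fun h => by rw [h] at hw; simp at hw)
  exact div_neg_of_neg_of_pos (by linarith) this

lemma inv_im_pos {w : ℂ} (hw : w.im < 0) : 0 < (1 / w).im := by
  rw [one_div, Complex.inv_im]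
  have : 0 < Complex.normSq w := Complex.normSq_pos.2 (fun h => by rw [h] at hw; simp at hw)
  exact div_pos (by linarith) this

/-- The logarithmic derivative of a real-rooted polynomial maps the upper half plane to the
(closed) lower one. -/
lemma logDeriv {p : ℝ[X]} (hp : RealRooted p) {z : ℂ} (hz : 0 < z.im) :
    ∃ r : ℂ, aeval z (derivative p) = r * aeval z p ∧ r.im ≤ 0 ∧ (p.natDegree ≠ 0 → r.im < 0) := by
  have hne : aeval z p ≠ 0 := fun h => by
    have := hp z h
    linarith
  set q : ℂ[X] := p.map (algebraMap ℝ ℂ) with hq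
  have e0 : aeval z p = q.eval z := by
    rw [hq, eval_map_algebraMap]
  have e1 : aeval z (derivative p) = q.derivative.eval z := by
    rw [hq, derivative_map, eval_map_algebraMap]
  have hq0 : q.eval z ≠ 0 := by rw [← e0]; exact hne
  have h1 := (IsAlgClosed.splits q).eval_derivative_div_eval_of_ne_zero hq0
  refine ⟨(q.roots.map fun w => 1 / (z - w)).sum, ?_, ?_, ?_⟩
  · rw [e0, e1, ← h1, div_mul_cancel₀ _ hq0]
  · have h2 : ∀ s : Multiset ℂ, (∀ w ∈ s, w.im = 0) → ((s.map fun w => 1 / (z - w)).sum).im ≤ 0 := by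
      intro s
      induction s using Multiset.induction with
      | empty => simp
      | cons a s ih =>
        intro hs
        rw [Multiset.map_cons, Multiset.sum_cons, Complex.add_im]
        have h3 := ih fun w hw => hs w (Multiset.mem_cons_of_mem hw)
        have h4 : (1 / (z - a)).im < 0 := inv_im_neg (by
          rw [Complex.sub_im, hs a (Multiset.mem_cons_self a s)]
          linarith)
        linarith
    apply h2
    intro w hw
    apply hp
    have := (mem_roots'.1 hw).2
    rw [IsRoot.def, hq, eval_map_algebraMap] at this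
    exact this
  · intro hdeg
    have h2 : ∀ s : Multiset ℂ, s ≠ 0 → (∀ w ∈ s, w.im = 0) →
        ((s.map fun w => 1 / (z - w)).sum).im < 0 := by
      intro s
      induction s using Multiset.induction with
      | empty => simp
      | cons a s ih =>
        intro _ hs
        rw [Multiset.map_cons, Multiset.sum_cons, Complex.add_im]
        have h4 : (1 / (z - a)).im < 0 := inv_im_neg (by
          rw [Complex.sub_im, hs a (Multiset.mem_cons_self a s)]
          linarith)
        by_cases hs0 : s = 0
        · subst hs0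
          simpa using h4
        · have h3 := ih hs0 fun w hw => hs w (Multiset.mem_cons_of_mem hw)
          linarith
    apply h2
    · intro h0
      apply hdeg
      have h5 := (IsAlgClosed.splits q).natDegree_eq_card_roots
      rw [h0, Multiset.card_zero, hq, natDegree_map] at h5
      exact h5
    · intro w hw
      apply hp
      have := (mem_roots'.1 hw).2
      rw [IsRoot.def, hq, eval_map_algebraMap] at this
      exact this

/-- `D` -/
noncomputable def D : Module.End ℝ ℝ[X] := derivative

/-- `(x²-1) D + κ x` -/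
noncomputable def Mop (κ : ℝ) : Module.End ℝ ℝ[X] :=
  LinearMap.mulLeft ℝ (X ^ 2 - 1) * D + LinearMap.mulLeft ℝ (C κ * X)

lemma Mop_apply (κ : ℝ) (p : ℝ[X]) : Mop κ p = (X ^ 2 - 1) * derivative p + C κ * X * p := rfl

/-- preserves real-rootedness -/
def PR (A : Module.End ℝ ℝ[X]) : Prop := ∀ p, RR p → RR (A p)

lemma PR_one : PR 1 := fun _ hp => hp

lemma PR.mul {A B : Module.End ℝ ℝ[X]} (hA : PR A) (hB : PR B) : PR (A * B) :=
  fun p hp => hA _ (hB p hp)

lemma RR_const {p : ℝ[X]} (hp : p.natDegree = 0) : RR p := by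
  by_cases h : p = 0
  · exact Or.inl h
  · right
    rw [natDegree_eq_zero] at hp
    obtain ⟨a, rfl⟩ := hp
    intro z hz
    rw [aeval_C] at hz
    exfalso
    apply h
    have : a = 0 := by simpa using hz
    rw [this, C_0]

lemma PR_D : PR D := by
  rintro p (hp | hp)
  · left
    rw [hp, map_zero]
  · by_cases hd : p.natDegree = 0
    · left
      exact derivative_of_natDegree_zero hd
    · right
      apply realRooted_of_upper
      intro z hz h0
      obtain ⟨r, h1, -, h3⟩ := logDeriv hp hz
      change aeval z (derivative p) = 0 at h0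
      rw [h1, mul_eq_zero] at h0
      rcases h0 with h0 | h0
      · have := h3 hd
        rw [h0] at this
        simp at this
      · have := hp z h0
        linarith

lemma aeval_Mop (κ : ℝ) (p : ℝ[X]) (z : ℂ) :
    aeval z (Mop κ p) = (z ^ 2 - 1) * aeval z (derivative p) + κ * z * aeval z p := by
  rw [Mop_apply]
  simp

lemma sq_sub_one_ne {z : ℂ} (hz : 0 < z.im) : z ^ 2 - 1 ≠ 0 := by
  intro h
  have h1 : (z - 1) * (z + 1) = 0 := by linear_combination h
  rcases mul_eq_zero.1 h1 with h2 | h2
  · have := congrArg Complex.im h2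
    simp at this
    linarith
  · have := congrArg Complex.im h2
    simp at this
    linarith

lemma ne_zero_of_im {z : ℂ} (hz : 0 < z.im) : z ≠ 0 := by
  rintro rfl
  simp at hz

lemma Mop_ne {κ : ℝ} (hκ : 0 < κ) {p : ℝ[X]} (hp : RealRooted p) {z : ℂ} (hz : 0 < z.im) :
    aeval z (Mop κ p) ≠ 0 := by
  intro h0
  obtain ⟨r, h1, h2, -⟩ := logDeriv hp hz
  rw [aeval_Mop, h1] at h0
  have hne : aeval z p ≠ 0 := fun h => by
    have := hp z h
    linarith
  have hs := sq_sub_one_ne hz
  have h3 : r + (κ / 2 : ℝ) * (1 / (z - 1)) + (κ / 2 : ℝ) * (1 / (z + 1)) = 0 := by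
    have hz1 : z - 1 ≠ 0 := fun h => hs (by linear_combination (z + 1) * h)
    have hz2 : z + 1 ≠ 0 := fun h => hs (by linear_combination (z - 1) * h)
    have h4 : (z ^ 2 - 1) * r + κ * z = 0 := by
      have : ((z ^ 2 - 1) * r + κ * z) * aeval z p = 0 := by linear_combination h0
      exact (mul_eq_zero.1 this).resolve_right hne
    field_simp
    push_cast
    linear_combination h4
  have h5 := congrArg Complex.im h3
  rw [Complex.add_im, Complex.add_im, Complex.im_ofReal_mul, Complex.im_ofReal_mul,
    Complex.zero_im] at h5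
  have h6 : (1 / (z - 1)).im < 0 := inv_im_neg (by simpa using hz)
  have h7 : (1 / (z + 1)).im < 0 := inv_im_neg (by simpa using hz)
  have h8 : κ / 2 * (1 / (z - 1)).im < 0 := mul_neg_of_pos_of_neg (by linarith) h6
  have h9 : κ / 2 * (1 / (z + 1)).im < 0 := mul_neg_of_pos_of_neg (by linarith) h7
  linarith

lemma PR_Mop {κ : ℝ} (hκ : 0 < κ) : PR (Mop κ) := by
  rintro p (hp | hp)
  · left
    rw [hp, map_zero]
  · right
    exact realRooted_of_upper fun z hz => Mop_ne hκ hp hz

/-- The operator `L_k = (x²-1) D² + 2(k+1) x D`. -/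
noncomputable def L (k : ℕ) : Module.End ℝ ℝ[X] := Mop (2 * (k + 1)) * D

lemma L_apply (k : ℕ) (p : ℝ[X]) : L k p =
    (X ^ 2 - 1) * derivative (derivative p) + C (2 * ((k : ℝ) + 1)) * X * derivative p := rfl

lemma D_Mop (k : ℕ) : D * Mop (2 * ((k : ℝ) + 1)) =
    L (k + 1) + algebraMap ℝ (Module.End ℝ ℝ[X]) (2 * ((k : ℝ) + 1)) := by
  refine LinearMap.ext fun p => ?_
  change derivative (Mop (2 * ((k : ℝ) + 1)) p) = L (k + 1) p + (2 * ((k : ℝ) + 1)) • p
  rw [Mop_apply, L_apply, smul_eq_C_mul]
  simp only [derivative_add, derivative_mul, derivative_sub, derivative_pow, derivative_X,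
    derivative_one, derivative_C]
  push_cast
  simp only [map_add, map_mul, map_ofNat, map_one, map_natCast]
  ring

lemma PR_T {k : ℕ} {c : ℝ} (hc : 0 < c) (hck : c < 2 * k) :
    PR (L k + algebraMap ℝ (Module.End ℝ ℝ[X]) c) := by
  rintro p (hp | hp)
  · left
    rw [hp, map_zero]
  have happ : (L k + algebraMap ℝ (Module.End ℝ ℝ[X]) c) p = L k p + c • p := rfl
  by_cases hd : p.natDegree = 0
  · rw [happ, L_apply, derivative_of_natDegree_zero hd, derivative_zero, mul_zero, mul_zero,
      add_zero, zero_add]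
    exact RR_const (by
      refine Nat.le_zero.1 ((natDegree_smul_le c p).trans ?_)
      rw [hd])
  right
  apply realRooted_of_upper
  intro z hz
  obtain ⟨r, h1, -, h3⟩ := logDeriv hp hz
  have hr := h3 hd
  have hh : RealRooted (Mop c p) := realRooted_of_upper fun z hz => Mop_ne hc hp hz
  obtain ⟨ρ, h4, h5, -⟩ := logDeriv hh hz
  have hne : aeval z p ≠ 0 := fun h => by
    have := hp z h
    linarith
  have hhne : aeval z (Mop c p) ≠ 0 := Mop_ne hc hp hz
  have hr0 : r ≠ 0 := fun h => by rw [h] at hr; simp at hr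
  have hz0 := ne_zero_of_im hz
  -- `q = z r / ((z²-1) r + c z)`
  set w : ℂ := z + (-1 : ℝ) * (1 / z) + (c : ℝ) * (1 / r) with hw
  have hwim : 0 < w.im := by
    rw [hw, Complex.add_im, Complex.add_im, Complex.im_ofReal_mul, Complex.im_ofReal_mul]
    have h6 := inv_im_neg hz
    have h7 := inv_im_pos hr
    have h8 : 0 < c * (1 / r).im := mul_pos hc h7
    linarith
  have hw0 : w ≠ 0 := ne_zero_of_im hwim
  have e1 : aeval z (Mop c p) = w * (z * r) * aeval z p := by
    rw [aeval_Mop, h1, hw]
    field_simp
    push_cast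
    ring
  have e2 : aeval z ((L k + algebraMap ℝ (Module.End ℝ ℝ[X]) c) p) =
      aeval z (Mop c p) * (ρ + ((2 * k - c : ℝ) : ℂ) * (1 / w)) := by
    have e3 : (L k + algebraMap ℝ (Module.End ℝ ℝ[X]) c) p =
        derivative (Mop c p) + C (2 * (k : ℝ) - c) * X * derivative p := by
      rw [happ, L_apply, Mop_apply, smul_eq_C_mul]
      simp only [derivative_add, derivative_mul, derivative_sub, derivative_pow, derivative_X,
        derivative_one, derivative_C]
      push_cast
      simp only [map_add, map_mul, map_sub, map_ofNat, map_one, map_natCast]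
      ring
    rw [e3, map_add, h4, map_mul, map_mul, aeval_C, aeval_X, h1]
    have e4 : r * aeval z p * z = aeval z (Mop c p) * (1 / w) := by
      rw [e1]
      field_simp
    have e5 : (algebraMap ℝ ℂ) (2 * (k : ℝ) - c) = ((2 * k - c : ℝ) : ℂ) := rfl
    rw [e5]
    linear_combination ((2 * k - c : ℝ) : ℂ) * e4
  rw [e2]
  refine mul_ne_zero hhne fun h0 => ?_
  have h9 := congrArg Complex.im h0
  rw [Complex.add_im, Complex.im_ofReal_mul, Complex.zero_im] at h9
  have h10 : (2 * k - c) * (1 / w).im < 0 := mul_neg_of_pos_of_neg (by linarith) (inv_im_neg hwim)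
  linarith

lemma intertwine (A B : Module.End ℝ ℝ[X]) (F : ℝ[X]) :
    aeval (A * B) F * A = A * aeval (B * A) F := by
  induction F using Polynomial.induction_on' with
  | add p q hp hq => rw [map_add, map_add, add_mul, mul_add, hp, hq]
  | monomial n a =>
    rw [aeval_monomial, aeval_monomial]
    have h : (A * B) ^ n * A = A * (B * A) ^ n := by
      induction n with
      | zero => simp
      | succ n ih => rw [pow_succ, pow_succ, mul_assoc, mul_assoc A B A, ← mul_assoc, ih,
          mul_assoc]
    rw [mul_assoc, h, ← mul_assoc, ← mul_assoc, Algebra.commutes]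

lemma intertwine' (A B : Module.End ℝ ℝ[X]) (F : ℝ[X]) :
    aeval (A * B) (X * F) = A * aeval (B * A) F * B := by
  rw [mul_comm X F, map_mul, aeval_X, ← mul_assoc, intertwine]

lemma main : ∀ N k a n : ℕ, n - a ≤ N → a ≤ k * (k + 1) → (k * k < a + k ∨ k = 0) →
    PR (aeval (L k) (∏ j ∈ Finset.Ico a n, (X - C ((j : ℝ) - k * (k + 1))))) := by
  intro N
  induction N with
  | zero =>
    intro k a n h _ _
    rw [Finset.Ico_eq_empty (by omega), Finset.prod_empty, map_one]
    exact PR_one
  | succ N ih =>
    intro k a n h h1 h2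
    by_cases hn : n ≤ a
    · rw [Finset.Ico_eq_empty (by omega), Finset.prod_empty, map_one]
      exact PR_one
    push Not at hn
    rw [Finset.prod_eq_prod_Ico_succ_bot hn]
    rcases Nat.lt_or_ge a (k * (k + 1)) with h3 | h3
    · rw [map_mul]
      have hk : k ≠ 0 := by
        rintro rfl
        omega
      have h4 : k * k < a + k := h2.resolve_right hk
      have e : aeval (L k) (X - C ((a : ℝ) - k * (k + 1))) =
          L k + algebraMap ℝ (Module.End ℝ ℝ[X]) ((k : ℝ) * (k + 1) - a) := by
        rw [map_sub, aeval_X, aeval_C, sub_eq_add_neg, ← map_neg, neg_sub]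
      rw [e]
      refine PR.mul (PR_T ?_ ?_) (ih k (a + 1) n (by omega) (by omega) (Or.inl (by omega)))
      · have : (a : ℝ) < k * (k + 1) := by exact_mod_cast h3
        linarith
      · have : (k : ℝ) * k < a + k := by exact_mod_cast h4
        linarith
    · have ha : a = k * (k + 1) := le_antisymm h1 h3
      have e0 : (X - C ((a : ℝ) - k * (k + 1)) : ℝ[X]) = X := by
        have : (a : ℝ) - k * (k + 1) = 0 := by
          rw [ha]
          push_cast
          ring
        rw [this, C_0, sub_zero]
      rw [e0]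
      have e1 : L k = Mop (2 * ((k : ℝ) + 1)) * D := rfl
      rw [e1, intertwine', D_Mop]
      have e2 : L (k + 1) + algebraMap ℝ (Module.End ℝ ℝ[X]) (2 * ((k : ℝ) + 1)) =
          aeval (L (k + 1)) (X + C (2 * ((k : ℝ) + 1))) := by
        rw [map_add, aeval_X, aeval_C]
      rw [e2, ← aeval_comp, prod_comp]
      have e3 : ∀ j : ℕ, ((X - C ((j : ℝ) - k * (k + 1))).comp (X + C (2 * ((k : ℝ) + 1))) : ℝ[X]) =
          X - C ((j : ℝ) - ((k + 1 : ℕ) : ℝ) * (((k + 1 : ℕ) : ℝ) + 1)) := by
        intro j
        rw [sub_comp, X_comp, C_comp]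
        have : (j : ℝ) - ((k + 1 : ℕ) : ℝ) * (((k + 1 : ℕ) : ℝ) + 1) =
            ((j : ℝ) - k * (k + 1)) - 2 * ((k : ℝ) + 1) := by
          push_cast
          ring
        rw [this, map_sub C ((j : ℝ) - k * (k + 1))]
        ring
      rw [Finset.prod_congr rfl fun j _ => e3 j]
      refine PR.mul (PR.mul (PR_Mop (by positivity)) (ih (k + 1) (a + 1) n (by omega) ?_ ?_)) PR_D
      · rw [ha]
        nlinarith
      · left
        rw [ha]
        nlinarith

/-- `P k` is a Legendre polynomial of degree `k` (with any normalisation), for every `k`. -/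
def IsLegendre (P : ℕ → ℝ[X]) : Prop := ∀ k : ℕ, (P k).degree = k ∧
  (1 - X ^ 2) * derivative (derivative (P k)) - 2 * X * derivative (P k) +
    C ((k : ℝ) * (k + 1)) * P k = 0

/-- `γ` is a Legendre multiplier sequence: the linear operator `Γ` with `Γ P_k = γ_k P_k` sends
polynomials with only real zeros to polynomials with only real zeros (or to the zero
polynomial). -/
def IsLegendreMultiplier (γ : ℕ → ℝ) : Prop := ∀ P : ℕ → ℝ[X], IsLegendre P →
  ∀ Γ : ℝ[X] →ₗ[ℝ] ℝ[X], (∀ k, Γ (P k) = γ k • P k) →
    ∀ p : ℝ[X], RealRooted p → Γ p = 0 ∨ RealRooted (Γ p)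

lemma mult (n : ℕ) : IsLegendreMultiplier
    (fun k => ∏ j ∈ Finset.range n, ((k : ℝ) * (k + 1) - j)) := by
  intro P hP Γ hΓ p hp
  have hΓeq : Γ = aeval (L 0) (∏ j ∈ Finset.Ico 0 n, (X - C ((j : ℝ) - (0 : ℕ) * ((0 : ℕ) + 1)))) := by
    let S : Polynomial.Sequence ℝ := ⟨P, fun k => (hP k).1⟩
    have hu : ∀ i, IsUnit (S i).leadingCoeff := fun i => by
      rw [isUnit_iff_ne_zero, leadingCoeff_ne_zero]
      exact S.ne_zero i
    refine LinearMap.ext_on_range (v := S) (S.span hu) fun k => ?_
    have h1 : L 0 (P k) = ((k : ℝ) * (k + 1)) • P k := by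
      rw [L_apply, smul_eq_C_mul]
      have h2 := (hP k).2
      simp only [Nat.cast_zero, zero_add, mul_one, C_ofNat]
      linear_combination -h2
    have h3 := Module.End.aeval_apply_of_mem_apply_eq_smul (f := L 0) (x := P k) h1
      (p := ∏ j ∈ Finset.Ico 0 n, (X - C ((j : ℝ) - (0 : ℕ) * ((0 : ℕ) + 1))))
    change Γ (P k) = _
    rw [hΓ k]
    refine Eq.trans ?_ h3.symm
    rw [eval_prod]
    simp
  have h := main n 0 0 n (by omega) (by omega) (Or.inr rfl) p (Or.inr hp)
  rw [hΓeq]
  exact h

lemma iter_mul_X (m : ℕ) (f : ℝ[X]) : derivative^[m + 1] (X * f) =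
    X * derivative^[m + 1] f + C ((m : ℝ) + 1) * derivative^[m] f := by
  induction m with
  | zero => simp; ring
  | succ m ih =>
    rw [Function.iterate_succ_apply', ih, Function.iterate_succ_apply' _ (m + 1),
      Function.iterate_succ_apply' _ m]
    simp only [derivative_mul, derivative_X, derivative_C, Nat.cast_succ, map_add,
      map_one, derivative_one]
    ring

lemma iter_sq (m : ℕ) (f : ℝ[X]) : derivative^[m + 1] ((X ^ 2 - 1) * derivative f) =
    (X ^ 2 - 1) * derivative^[m + 2] f + C (2 * ((m : ℝ) + 1)) * X * derivative^[m + 1] f +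
      C (((m : ℝ) + 1) * m) * derivative^[m] f := by
  induction m with
  | zero =>
    simp only [Function.iterate_succ_apply', Function.iterate_zero, id, derivative_mul,
      derivative_sub, derivative_pow, derivative_X, derivative_one]
    simp
    ring
  | succ m ih =>
    rw [Function.iterate_succ_apply', ih]
    simp only [Function.iterate_succ_apply', derivative_add, derivative_mul,
      derivative_sub, derivative_pow, derivative_X, derivative_one, derivative_C]
    push_cast
    simp only [map_add, map_mul, map_ofNat, map_one, map_natCast]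
    ring

/-- Rodrigues' formula gives the Legendre polynomials. -/
lemma isLegendre_rodrigues : IsLegendre fun k => derivative^[k] ((X ^ 2 - 1) ^ k) := by
  intro k
  have hmon : ((X ^ 2 - 1 : ℝ[X]) ^ k).Monic := by
    apply Monic.pow
    exact monic_X_pow_sub_C 1 two_ne_zero
  have hnd : ((X ^ 2 - 1 : ℝ[X]) ^ k).natDegree = 2 * k := by
    have : (X ^ 2 - 1 : ℝ[X]) = X ^ 2 - C 1 := by simp
    rw [natDegree_pow, this, natDegree_X_pow_sub_C]
    ring
  constructor
  · have h1 : (derivative^[k] ((X ^ 2 - 1 : ℝ[X]) ^ k)).natDegree ≤ k := by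
      refine (natDegree_iterate_derivative _ k).trans ?_
      rw [hnd]
      omega
    have h2 : (derivative^[k] ((X ^ 2 - 1 : ℝ[X]) ^ k)).coeff k ≠ 0 := by
      rw [coeff_iterate_derivative]
      have h3 : ((X ^ 2 - 1 : ℝ[X]) ^ k).coeff (k + k) = 1 := by
        have := hmon.coeff_natDegree
        rw [hnd, two_mul] at this
        exact this
      rw [h3, nsmul_eq_mul, mul_one]
      exact_mod_cast (Nat.pos_iff_ne_zero.1 (Nat.descFactorial_pos.2 (by omega)))
    exact degree_eq_of_le_of_coeff_ne_zero (natDegree_le_iff_degree_le.1 h1) h2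
  · set u : ℝ[X] := (X ^ 2 - 1) ^ k with hu
    have h0 : (X ^ 2 - 1) * derivative u = C (2 * (k : ℝ)) * (X * u) := by
      rw [hu]
      cases k with
      | zero => simp
      | succ k =>
        rw [derivative_pow_succ]
        simp only [derivative_sub, derivative_pow, derivative_X, derivative_one]
        push_cast
        simp only [map_add, map_mul, map_ofNat, map_one, map_natCast]
        ring
    have h1 := iter_sq k u
    have h2 : derivative^[k + 1] ((X ^ 2 - 1) * derivative u) =
        C (2 * (k : ℝ)) * (X * derivative^[k + 1] u + C ((k : ℝ) + 1) * derivative^[k] u) := by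
      rw [h0, iterate_derivative_C_mul, iter_mul_X]
    rw [h1] at h2
    simp only
    have e1 : derivative (derivative^[k] u) = derivative^[k + 1] u :=
      (Function.iterate_succ_apply' _ _ _).symm
    have e2 : derivative (derivative^[k + 1] u) = derivative^[k + 2] u :=
      (Function.iterate_succ_apply' _ _ _).symm
    rw [e1, e2]
    simp only [map_add, map_mul, map_ofNat, map_one, map_natCast] at h2 ⊢
    linear_combination -h2

/-- **Q1 holds.** -/
theorem result : (∃ P, IsLegendre P) ∧ ∀ n : ℕ, 1 ≤ n → IsLegendreMultiplier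
    (fun k => ∏ j ∈ Finset.range n, ((k : ℝ) * (k + 1) - j)) :=
  ⟨⟨_, isLegendre_rodrigues⟩, fun n _ => mult n⟩

end Pool.Agent.Results.MP_c016d9_an.FallingFactorial
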